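import Mathlib

/-!
# MP_d92bf9_co : continuous parameters above bandwidth with bounded reduced value

For every class of graphs whose reduced bandwidth is bounded (planar graphs are such a
class: their reduced bandwidth is at most 466) there is a continuous graph parameter `f`,
strictly above bandwidth, whose reduced value is bounded on the class.  The parameter is
`f(G) = bw(G) + #{v : deg v > 2k}`, where `k` bounds the reduced bandwidth of the class.
-/

namespace Pool.Agent.Results.MP_d92bf9_co.StrictlyAboveBandwidth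

/-- A graph parameter: an isomorphism-invariant map from finite simple graphs (on the vertex
sets `Fin n`) to the natural numbers. -/
structure GraphParam where
  val : ∀ {n : ℕ}, SimpleGraph (Fin n) → ℕ
  iso : ∀ {n m : ℕ} (G : SimpleGraph (Fin n)) (H : SimpleGraph (Fin m)),
    Nonempty (G ≃g H) → val G = val H

/-- `f ⪯ g`. -/
def GraphParam.Below (f g : GraphParam) : Prop :=
  ∃ h : ℕ → ℕ, ∀ (n : ℕ) (G : SimpleGraph (Fin n)), f.val G ≤ h (g.val G)

/-- `f ⪯ g` but not `g ⪯ f`. -/
def GraphParam.StrictlyBelow (f g : GraphParam) : Prop := f.Below g ∧ ¬ g.Below f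

/-- Continuity: `f(G) ≤ g(f(G-e))` for every edge `e` and `f(G) ≤ g(f(G-v))` for every
isolated vertex `v`, for some function `g`. -/
def GraphParam.IsContinuous (f : GraphParam) : Prop :=
  ∃ g : ℕ → ℕ,
    (∀ (n : ℕ) (G : SimpleGraph (Fin n)) (u v : Fin n), G.Adj u v →
      f.val G ≤ g (f.val (G.deleteEdges {s(u, v)}))) ∧
    (∀ (n : ℕ) (G : SimpleGraph (Fin (n + 1))) (v : Fin (n + 1)), (∀ u, ¬ G.Adj v u) →
      f.val G ≤ g (f.val (G.comap v.succAbove)))

/-- The bandwidth: the least `k` such that for some bijection `σ` (a linear layout) every edge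
`uv` satisfies `|σ(u) - σ(v)| ≤ k`. -/
noncomputable def bwVal {n : ℕ} (G : SimpleGraph (Fin n)) : ℕ :=
  sInf {k : ℕ | ∃ σ : Equiv.Perm (Fin n), ∀ u v, G.Adj u v →
    |((σ u : ℕ) : ℤ) - ((σ v : ℕ) : ℤ)| ≤ k}

/-- A trigraph: black edges and red edges. -/
structure Trigraph (V : Type) where
  black : SimpleGraph V
  red : SimpleGraph V
  disj : ∀ u v, black.Adj u v → ¬ red.Adj u v

/-- `T'` is obtained from `T` by contracting two vertices `u`, `v` to one (`π u = π v`). -/
def Trigraph.IsContraction {V W : Type} (T : Trigraph V) (T' : Trigraph W) : Prop :=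
  ∃ (u v : V) (π : V → W), u ≠ v ∧ Function.Surjective π ∧
    (∀ x y, π x = π y ↔ (x = y ∨ (x = u ∧ y = v) ∨ (x = v ∧ y = u))) ∧
    (∀ x y, x ≠ u → x ≠ v → y ≠ u → y ≠ v →
      ((T'.black.Adj (π x) (π y) ↔ T.black.Adj x y) ∧
        (T'.red.Adj (π x) (π y) ↔ T.red.Adj x y))) ∧
    (∀ x, x ≠ u → x ≠ v →
      ((T'.black.Adj (π u) (π x) ↔ (T.black.Adj u x ∧ T.black.Adj v x)) ∧
        (T'.red.Adj (π u) (π x) ↔
          (¬ (T.black.Adj u x ∧ T.black.Adj v x) ∧
            (T.black.Adj u x ∨ T.red.Adj u x ∨ T.black.Adj v x ∨ T.red.Adj v x)))))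

/-- The trigraph with black edges `G` and no red edges. -/
def ofGraph {V : Type} (G : SimpleGraph V) : Trigraph V where
  black := G
  red := ⊥
  disj := by intro u v _ h; simp at h

/-- `T n, T (n-1), ..., T 1` is a reduction sequence of the `n`-vertex graph `G`. -/
def IsReductionSeq {n : ℕ} (G : SimpleGraph (Fin n)) (T : (i : ℕ) → Trigraph (Fin i)) : Prop :=
  T n = ofGraph G ∧ ∀ i, 1 ≤ i → i < n → (T (i + 1)).IsContraction (T i)

/-- The reduced value of `f` on `G` is at most `k`: some reduction sequence has all its red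
graphs of `f`-value at most `k`. -/
def GraphParam.ReducedLE (f : GraphParam) {n : ℕ} (G : SimpleGraph (Fin n)) (k : ℕ) : Prop :=
  ∃ T : (i : ℕ) → Trigraph (Fin i), IsReductionSeq G T ∧
    ∀ i, 1 ≤ i → i ≤ n → f.val (T i).red ≤ k

/-- The reduced value of `f` is bounded on the class `C`. -/
def GraphParam.BoundedReducedOn (f : GraphParam) (C : (n : ℕ) → Set (SimpleGraph (Fin n))) :
    Prop :=
  ∃ k : ℕ, ∀ (n : ℕ) (G : SimpleGraph (Fin n)), G ∈ C n → f.ReducedLE G k

/-! ### Bandwidth -/

lemma bw_set_nonempty {n : ℕ} (G : SimpleGraph (Fin n)) :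
    {k : ℕ | ∃ σ : Equiv.Perm (Fin n), ∀ u v, G.Adj u v →
      |((σ u : ℕ) : ℤ) - ((σ v : ℕ) : ℤ)| ≤ k}.Nonempty := by
  refine ⟨n, Equiv.refl _, ?_⟩
  intro u v _
  simp only [Equiv.refl_apply]
  rw [abs_le]
  constructor <;> have := u.2 <;> have := v.2 <;> omega

lemma bw_spec {n : ℕ} (G : SimpleGraph (Fin n)) :
    ∃ σ : Equiv.Perm (Fin n), ∀ u v, G.Adj u v →
      |((σ u : ℕ) : ℤ) - ((σ v : ℕ) : ℤ)| ≤ (bwVal G : ℕ) :=
  Nat.sInf_mem (bw_set_nonempty G)

/-- An injective placement of the vertices in `ℤ` in which all edges have length at most `b`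
shows that the bandwidth is at most `b`. -/
lemma bw_le_of_inj {n : ℕ} (G : SimpleGraph (Fin n)) (φ : Fin n → ℤ)
    (hφ : Function.Injective φ) (b : ℕ) (h : ∀ u v, G.Adj u v → φ v - φ u ≤ b) :
    bwVal G ≤ b := by
  classical
  let r : Fin n → ℕ := fun u => (Finset.univ.filter (fun w => φ w < φ u)).card
  have hr : ∀ u, r u < n := by
    intro u
    have : (Finset.univ.filter (fun w => φ w < φ u)) ⊂ Finset.univ := by
      rw [Finset.ssubset_univ_iff]
      intro hh
      have : u ∈ Finset.univ.filter (fun w => φ w < φ u) := by rw [hh]; simp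
      simp at this
    have := Finset.card_lt_card this
    simpa [r] using this
  have hmono : ∀ u v, φ u < φ v → r u < r v := by
    intro u v huv
    apply Finset.card_lt_card
    rw [Finset.ssubset_iff_of_subset]
    · exact ⟨u, by simpa using huv, by simp⟩
    · intro w hw
      simp only [Finset.mem_filter, Finset.mem_univ, true_and] at hw ⊢
      exact hw.trans huv
  let s : Fin n → Fin n := fun u => ⟨r u, hr u⟩
  have hs : Function.Injective s := by
    intro u v huv
    have huv' : r u = r v := by simpa [s] using huv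
    by_contra hne
    rcases lt_trichotomy (φ u) (φ v) with h1 | h1 | h1
    · have := hmono u v h1; omega
    · exact hne (hφ h1)
    · have := hmono v u h1; omega
  have hdiff : ∀ u v, φ u < φ v → φ v - φ u ≤ b → (r v : ℤ) - r u ≤ b := by
    intro u v huv hb
    have hsub : Finset.univ.filter (fun w => φ w < φ v) ⊆
        Finset.univ.filter (fun w => φ w < φ u) ∪
        Finset.univ.filter (fun w => φ u ≤ φ w ∧ φ w < φ v) := by
      intro w hw
      simp only [Finset.mem_filter, Finset.mem_univ, true_and, Finset.mem_union] at hw ⊢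
      rcases lt_or_ge (φ w) (φ u) with h1 | h1
      · exact Or.inl h1
      · exact Or.inr ⟨h1, hw⟩
    have h1 := (Finset.card_le_card hsub).trans (Finset.card_union_le _ _)
    have h2 : (Finset.univ.filter (fun w => φ u ≤ φ w ∧ φ w < φ v)).card ≤
        (Finset.Ico (φ u) (φ v)).card := by
      apply Finset.card_le_card_of_injOn φ
      · intro w hw
        simpa using hw
      · exact hφ.injOn
    rw [Int.card_Ico] at h2
    have h3 : r v ≤ r u + (φ v - φ u).toNat := h1.trans (by
      have : (Finset.univ.filter (fun w => φ w < φ u)).card = r u := rfl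
      omega)
    omega
  refine Nat.sInf_le ⟨Equiv.ofBijective s (Finite.injective_iff_bijective.mp hs), ?_⟩
  intro u v huv
  simp only [Equiv.ofBijective_apply]
  change |((r u : ℕ) : ℤ) - ((r v : ℕ) : ℤ)| ≤ b
  have hne : φ u ≠ φ v := fun hh => huv.ne (hφ hh)
  rw [abs_le]
  rcases lt_or_gt_of_ne hne with h1 | h1
  · have h2 := hmono u v h1
    have h3 := hdiff u v h1 (h u v huv)
    constructor <;> omega
  · have h2 := hmono v u h1
    have h3 := hdiff v u h1 (h v u huv.symm)
    constructor <;> omega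

lemma bw_iso_le {n m : ℕ} (G : SimpleGraph (Fin n)) (H : SimpleGraph (Fin m)) (e : G ≃g H) :
    bwVal G ≤ bwVal H := by
  obtain ⟨σ, hσ⟩ := bw_spec H
  refine bw_le_of_inj G (fun u => ((σ (e u) : ℕ) : ℤ)) ?_ _ ?_
  · intro u v huv
    have h1 : (σ (e u) : ℕ) = (σ (e v) : ℕ) := by
      simp only at huv
      exact_mod_cast huv
    exact e.injective (σ.injective (Fin.ext h1))
  · intro u v huv
    have := hσ (e u) (e v) (e.map_rel_iff.mpr huv)
    rw [abs_le] at this
    omega

/-- Bandwidth as a graph parameter. -/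
noncomputable def bandwidth : GraphParam where
  val := fun {n} G => bwVal G
  iso := by
    rintro n m G H ⟨e⟩
    exact le_antisymm (bw_iso_le G H e) (bw_iso_le H G e.symm)

/-- Adding one edge: fold the layout at the ends of the edge. -/
lemma bw_delete_edge {n : ℕ} (G : SimpleGraph (Fin n)) (u v : Fin n) (huv : G.Adj u v) :
    bwVal G ≤ 4 * bwVal (G.deleteEdges {s(u, v)}) + 3 := by
  set b := bwVal (G.deleteEdges {s(u, v)}) with hb
  obtain ⟨σ, hσ⟩ := bw_spec (G.deleteEdges {s(u, v)})
  rw [← hb] at hσ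
  -- positions
  wlog hlt : (σ u : ℕ) < (σ v : ℕ) generalizing u v
  · have hne : (σ u : ℕ) ≠ (σ v : ℕ) := fun h => huv.ne (σ.injective (Fin.ext h))
    have hlt' : (σ v : ℕ) < (σ u : ℕ) := by omega
    have hswap : G.deleteEdges {s(v, u)} = G.deleteEdges {s(u, v)} := by
      rw [Sym2.eq_swap]
    have hb' : b = bwVal (G.deleteEdges {s(v, u)}) := by rw [hswap]
    have hσ' : ∀ x y, (G.deleteEdges {s(v, u)}).Adj x y →
        |((σ x : ℕ) : ℤ) - ((σ y : ℕ) : ℤ)| ≤ b := by rw [hswap]; exact hσ
    have := this v u huv.symm rfl (by rw [← hb']; exact hσ') hlt'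
    rw [← hb'] at this
    exact this
  let i : ℤ := ((σ u : ℕ) : ℤ)
  let j : ℤ := ((σ v : ℕ) : ℤ)
  have hij : i < j := by simp only [i, j]; exact_mod_cast hlt
  -- the folding map
  let F : ℤ → ℤ := fun p =>
    if p < i then 4 * (i - p)
    else if p ≤ j then (if 2 * p ≤ i + j then 4 * (p - i) + 1 else 4 * (j - p) + 2)
    else 4 * (p - j) + 3
  have hFinj : Function.Injective F := by
    intro p q hpq
    simp only [F] at hpq
    split_ifs at hpq <;> omega
  refine bw_le_of_inj G (fun w => F ((σ w : ℕ) : ℤ)) ?_ _ ?_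
  · intro w w' hw
    have h1 := hFinj hw
    have h2 : (σ w : ℕ) = (σ w' : ℕ) := by exact_mod_cast h1
    exact σ.injective (Fin.ext h2)
  · intro w w' hww
    have hF : ∀ p q : ℤ, |p - q| ≤ b → F q - F p ≤ 4 * (b : ℤ) + 3 := by
      intro p q hpq
      rw [abs_le] at hpq
      simp only [F]
      split_ifs <;> omega
    by_cases he : s(w, w') = s(u, v)
    · rw [Sym2.eq_iff] at he
      have hFi : F i = 1 := by simp only [F]; split_ifs <;> omega
      have hFj : F j = 2 := by simp only [F]; split_ifs <;> omega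
      rcases he with ⟨rfl, rfl⟩ | ⟨rfl, rfl⟩
      · change F j - F i ≤ _
        rw [hFi, hFj]; push_cast; omega
      · change F i - F j ≤ _
        rw [hFi, hFj]; push_cast; omega
    · have hadj : (G.deleteEdges {s(u, v)}).Adj w w' := by
        rw [SimpleGraph.deleteEdges_adj]
        exact ⟨hww, by simpa using he⟩
      have := hF _ _ (hσ w w' hadj)
      push_cast
      exact this

lemma bw_delete_vertex {n : ℕ} (G : SimpleGraph (Fin (n + 1))) (v : Fin (n + 1))
    (hv : ∀ u, ¬ G.Adj v u) : bwVal G ≤ bwVal (G.comap v.succAbove) := by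
  obtain ⟨σ, hσ⟩ := bw_spec (G.comap v.succAbove)
  classical
  let φ : Fin (n + 1) → ℤ := fun w =>
    if h : ∃ x : Fin n, v.succAbove x = w then ((σ h.choose : ℕ) : ℤ) else n
  have hφ : ∀ x : Fin n, φ (v.succAbove x) = ((σ x : ℕ) : ℤ) := by
    intro x
    have h : ∃ y : Fin n, v.succAbove y = v.succAbove x := ⟨x, rfl⟩
    have h2 : h.choose = x := Fin.succAbove_right_injective h.choose_spec
    simp only [φ, dif_pos h, h2]
  have hφv : φ v = n := by
    have h : ¬ ∃ x : Fin n, v.succAbove x = v := by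
      rintro ⟨x, hx⟩
      exact Fin.succAbove_ne v x hx
    simp only [φ, dif_neg h]
  have hcases : ∀ w : Fin (n + 1), w = v ∨ ∃ x : Fin n, w = v.succAbove x := by
    intro w
    by_cases h : w = v
    · exact Or.inl h
    · right
      obtain ⟨x, hx⟩ := Fin.exists_succAbove_eq h
      exact ⟨x, hx.symm⟩
  refine bw_le_of_inj G φ ?_ _ ?_
  · intro w w' hww
    rcases hcases w with rfl | ⟨x, rfl⟩ <;> rcases hcases w' with h' | ⟨y, rfl⟩
    · exact h'.symm
    · rw [hφv, hφ] at hww
      have := (σ y).2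
      omega
    · subst h'
      rw [hφv, hφ] at hww
      have := (σ x).2
      omega
    · rw [hφ, hφ] at hww
      have h2 : (σ x : ℕ) = (σ y : ℕ) := by exact_mod_cast hww
      rw [σ.injective (Fin.ext h2)]
  · intro w w' hww
    rcases hcases w with rfl | ⟨x, rfl⟩
    · exact absurd hww (hv w')
    rcases hcases w' with rfl | ⟨y, rfl⟩
    · exact absurd hww.symm (hv _)
    · rw [hφ, hφ]
      have := hσ x y hww
      rw [abs_le] at this
      omega

/-! ### The number of vertices of large degree -/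

/-- The number of vertices of degree more than `d`. -/
noncomputable def bigVal (d : ℕ) {n : ℕ} (G : SimpleGraph (Fin n)) : ℕ :=
  {v : Fin n | d < (G.neighborSet v).ncard}.ncard

lemma big_iso_le (d : ℕ) {n m : ℕ} (G : SimpleGraph (Fin n)) (H : SimpleGraph (Fin m))
    (e : G ≃g H) : bigVal d G ≤ bigVal d H := by
  unfold bigVal
  apply Set.ncard_le_ncard_of_injOn (fun v => e v)
  · intro v hv
    simp only [Set.mem_ofPred_eq] at hv ⊢
    have : H.neighborSet (e v) = e '' G.neighborSet v := by
      ext w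
      simp only [SimpleGraph.mem_neighborSet, Set.mem_image]
      constructor
      · intro h
        refine ⟨e.symm w, ?_, by simp⟩
        have : H.Adj (e v) (e (e.symm w)) := by simpa using h
        exact e.map_rel_iff.mp this
      · rintro ⟨x, hx, rfl⟩
        exact e.map_rel_iff.mpr hx
    rw [this, Set.ncard_image_of_injective _ e.injective]
    exact hv
  · exact e.injective.injOn

/-- The parameter `bw(G) + #{v : deg v > 2k}`. -/
noncomputable def fparam (k : ℕ) : GraphParam where
  val := fun {n} G => bwVal G + bigVal (2 * k) G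
  iso := by
    rintro n m G H ⟨e⟩
    have h1 := le_antisymm (bw_iso_le G H e) (bw_iso_le H G e.symm)
    have h2 := le_antisymm (big_iso_le (2 * k) G H e) (big_iso_le (2 * k) H G e.symm)
    rw [h1, h2]

lemma big_delete_edge (d : ℕ) {n : ℕ} (G : SimpleGraph (Fin n)) (u v : Fin n) :
    bigVal d G ≤ bigVal d (G.deleteEdges {s(u, v)}) + 2 := by
  unfold bigVal
  have hsub : {w : Fin n | d < (G.neighborSet w).ncard} ⊆
      {w : Fin n | d < ((G.deleteEdges {s(u, v)}).neighborSet w).ncard} ∪ {u, v} := by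
    intro w hw
    by_cases hwu : w = u
    · right; simp [hwu]
    by_cases hwv : w = v
    · right; simp [hwv]
    left
    have : (G.deleteEdges {s(u, v)}).neighborSet w = G.neighborSet w := by
      ext x
      simp only [SimpleGraph.mem_neighborSet, SimpleGraph.deleteEdges_adj,
        Set.mem_singleton_iff, Sym2.eq_iff]
      constructor
      · exact fun h => h.1
      · intro h
        refine ⟨h, ?_⟩
        rintro (⟨h1, _⟩ | ⟨h1, _⟩)
        · exact hwu h1
        · exact hwv h1
    simp only [Set.mem_ofPred_eq, this] at hw ⊢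
    exact hw
  have h2 : ({u, v} : Set (Fin n)).ncard ≤ 2 := by
    refine (Set.ncard_insert_le u {v}).trans ?_
    simp
  calc _ ≤ _ := Set.ncard_le_ncard hsub (Set.toFinite _)
    _ ≤ _ := Set.ncard_union_le _ _
    _ ≤ _ := by omega

lemma big_delete_vertex (d : ℕ) {n : ℕ} (G : SimpleGraph (Fin (n + 1))) (v : Fin (n + 1))
    (hv : ∀ u, ¬ G.Adj v u) : bigVal d G ≤ bigVal d (G.comap v.succAbove) := by
  unfold bigVal
  have himg : {w : Fin (n + 1) | d < (G.neighborSet w).ncard} ⊆
      v.succAbove '' {x : Fin n | d < ((G.comap v.succAbove).neighborSet x).ncard} := by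
    intro w hw
    have hwv : w ≠ v := by
      rintro rfl
      have : G.neighborSet w = ∅ := by
        ext x; simp [hv x]
      simp [this] at hw
    obtain ⟨x, rfl⟩ := Fin.exists_succAbove_eq hwv
    refine ⟨x, ?_, rfl⟩
    have : G.neighborSet (v.succAbove x) =
        v.succAbove '' ((G.comap v.succAbove).neighborSet x) := by
      ext y
      simp only [SimpleGraph.mem_neighborSet, Set.mem_image, SimpleGraph.comap_adj]
      constructor
      · intro h
        have hyv : y ≠ v := by
          rintro rfl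
          exact hv _ h.symm
        obtain ⟨z, rfl⟩ := Fin.exists_succAbove_eq hyv
        exact ⟨z, h, rfl⟩
      · rintro ⟨z, hz, rfl⟩
        exact hz
    simp only [Set.mem_ofPred_eq] at hw ⊢
    rwa [this, Set.ncard_image_of_injective _ Fin.succAbove_right_injective] at hw
  calc _ ≤ _ := Set.ncard_le_ncard himg (Set.toFinite _)
    _ ≤ _ := Set.ncard_image_le (Set.toFinite _)

lemma fparam_continuous (k : ℕ) : (fparam k).IsContinuous := by
  refine ⟨fun x => 4 * x + 5, ?_, ?_⟩
  · intro n G u v huv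
    have h1 := bw_delete_edge G u v huv
    have h2 := big_delete_edge (2 * k) G u v
    change bwVal G + bigVal (2 * k) G ≤ 4 * (bwVal (G.deleteEdges {s(u, v)}) +
      bigVal (2 * k) (G.deleteEdges {s(u, v)})) + 5
    omega
  · intro n G v hv
    have h1 := bw_delete_vertex G v hv
    have h2 := big_delete_vertex (2 * k) G v hv
    change bwVal G + bigVal (2 * k) G ≤ 4 * (bwVal (G.comap v.succAbove) +
      bigVal (2 * k) (G.comap v.succAbove)) + 5
    omega

/-- A graph of bandwidth at most `k` has all its degrees at most `2k`. -/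
lemma big_eq_zero {n : ℕ} (G : SimpleGraph (Fin n)) (k : ℕ) (h : bwVal G ≤ k) :
    bigVal (2 * k) G = 0 := by
  obtain ⟨σ, hσ⟩ := bw_spec G
  unfold bigVal
  rw [Set.ncard_eq_zero (Set.toFinite _)]
  ext w
  simp only [Set.mem_ofPred_eq, Set.mem_empty_iff_false, iff_false, not_lt]
  have h1 : (G.neighborSet w).ncard ≤
      ((Finset.Icc (((σ w : ℕ) : ℤ) - k) (((σ w : ℕ) : ℤ) + k)).erase
        ((σ w : ℕ) : ℤ) : Set ℤ).ncard := by
    apply Set.ncard_le_ncard_of_injOn (fun x => ((σ x : ℕ) : ℤ))
    · intro x hx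
      have hx' : G.Adj w x := hx
      have h2 := hσ w x hx'
      rw [abs_le] at h2
      have h3 : ((σ x : ℕ) : ℤ) ≠ ((σ w : ℕ) : ℤ) := by
        intro hh
        have : (σ x : ℕ) = (σ w : ℕ) := by exact_mod_cast hh
        exact hx'.ne (σ.injective (Fin.ext this)).symm
      simp only [Finset.coe_erase, Finset.coe_Icc, Set.mem_sdiff, Set.mem_Icc,
        Set.mem_singleton_iff]
      refine ⟨⟨?_, ?_⟩, h3⟩ <;> omega
    · intro x _ y _ hxy
      have : (σ x : ℕ) = (σ y : ℕ) := by
        simp only at hxy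
        exact_mod_cast hxy
      exact σ.injective (Fin.ext this)
  refine h1.trans ?_
  rw [Set.ncard_coe_finset, Finset.card_erase_of_mem (by simp), Int.card_Icc]
  omega

/-- The disjoint union of `N` cliques with `s` vertices each. -/
def cliques (s N : ℕ) : SimpleGraph (Fin (N * s)) where
  Adj a b := a ≠ b ∧ (a : ℕ) / s = (b : ℕ) / s
  symm := ⟨fun _ _ h => ⟨h.1.symm, h.2.symm⟩⟩
  loopless := ⟨fun _ h => h.1 rfl⟩

lemma bw_cliques (s N : ℕ) (hs : 0 < s) : bwVal (cliques s N) ≤ s := by
  refine bw_le_of_inj _ (fun u => ((u : ℕ) : ℤ)) ?_ _ ?_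
  · intro u v huv
    simp only at huv
    exact Fin.ext (by exact_mod_cast huv)
  · intro u v huv
    obtain ⟨_, h2⟩ := huv
    have h3 := Nat.div_add_mod (u : ℕ) s
    have h4 := Nat.div_add_mod (v : ℕ) s
    have h5 := Nat.mod_lt (u : ℕ) hs
    have h6 := Nat.mod_lt (v : ℕ) hs
    rw [h2] at h3
    omega

lemma big_cliques (d N : ℕ) : N ≤ bigVal d (cliques (d + 2) N) := by
  unfold bigVal
  have hall : {v : Fin (N * (d + 2)) | d < ((cliques (d + 2) N).neighborSet v).ncard} =
      Set.univ := by
    ext v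
    simp only [Set.mem_ofPred_eq, Set.mem_univ, iff_true]
    -- the block of `v`
    have hv := v.2
    have hq : (v : ℕ) / (d + 2) < N := by
      rw [Nat.div_lt_iff_lt_mul (by omega)]
      exact hv
    let q := (v : ℕ) / (d + 2)
    have hblock : ∀ r : Fin (d + 2), q * (d + 2) + (r : ℕ) < N * (d + 2) := by
      intro r
      have h1 : (q + 1) * (d + 2) ≤ N * (d + 2) := Nat.mul_le_mul_right _ hq
      have h2 := r.2
      nlinarith
    let ι : Fin (d + 2) → Fin (N * (d + 2)) := fun r => ⟨q * (d + 2) + r, hblock r⟩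
    have hι : Function.Injective ι := by
      intro r r' hrr
      have : q * (d + 2) + (r : ℕ) = q * (d + 2) + (r' : ℕ) := by simpa [ι] using hrr
      exact Fin.ext (by omega)
    have hdiv : ∀ r : Fin (d + 2), (q * (d + 2) + (r : ℕ)) / (d + 2) = q := by
      intro r
      rw [mul_comm, Nat.mul_add_div (by omega), Nat.div_eq_of_lt r.2]
      simp
    have hsub : Set.range ι \ {v} ⊆ (cliques (d + 2) N).neighborSet v := by
      rintro x ⟨⟨r, rfl⟩, hx⟩
      refine ⟨fun h => hx (by simpa using h.symm), ?_⟩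
      change (v : ℕ) / (d + 2) = (q * (d + 2) + (r : ℕ)) / (d + 2)
      rw [hdiv r]
    have h1 : (Set.range ι \ {v}).ncard ≤ _ := Set.ncard_le_ncard hsub (Set.toFinite _)
    have h2 : (Set.range ι).ncard = d + 2 := by
      rw [← Set.image_univ, Set.ncard_image_of_injective _ hι, Set.ncard_univ]
      simp
    have h3 : (Set.range ι).ncard ≤ (Set.range ι \ {v}).ncard + ({v} : Set _).ncard := by
      have := Set.ncard_le_ncard_sdiff_add_ncard (Set.range ι) ({v} : Set _) (Set.toFinite _)
      exact this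
    rw [Set.ncard_singleton] at h3
    omega
  rw [hall, Set.ncard_univ]
  simp only [Nat.card_eq_fintype_card, Fintype.card_fin]
  nlinarith

theorem result (C : (n : ℕ) → Set (SimpleGraph (Fin n)))
    (hC : bandwidth.BoundedReducedOn C) :
    ∃ f : GraphParam, f.IsContinuous ∧ bandwidth.StrictlyBelow f ∧ f.BoundedReducedOn C := by
  obtain ⟨k, hk⟩ := hC
  refine ⟨fparam k, fparam_continuous k, ⟨⟨id, ?_⟩, ?_⟩, k, ?_⟩
  · intro n G
    change bwVal G ≤ bwVal G + bigVal (2 * k) G
    omega
  · rintro ⟨h, hh⟩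
    -- `h` is bounded on `[0, 2k+2]`
    obtain ⟨M, hM⟩ : ∃ M, ∀ x ≤ 2 * k + 2, h x ≤ M := by
      refine ⟨∑ x ∈ Finset.range (2 * k + 3), h x, ?_⟩
      intro x hx
      exact Finset.single_le_sum (f := h) (fun _ _ => Nat.zero_le _)
        (Finset.mem_range.mpr (by omega))
    have h1 := hh _ (cliques (2 * k + 2) (M + 1))
    change bwVal _ + bigVal (2 * k) _ ≤ h (bwVal _) at h1
    have h2 := big_cliques (2 * k) (M + 1)
    have h3 := hM _ (bw_cliques (2 * k + 2) (M + 1) (by omega))
    omega
  · intro n G hG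
    obtain ⟨T, hT, hT2⟩ := hk n G hG
    refine ⟨T, hT, ?_⟩
    intro i hi hin
    have h1 : bwVal (T i).red ≤ k := hT2 i hi hin
    change bwVal (T i).red + bigVal (2 * k) (T i).red ≤ k
    rw [big_eq_zero _ k h1]
    omega

end Pool.Agent.Results.MP_d92bf9_co.StrictlyAboveBandwidth
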